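import Mathlib

/-!
# Taylor polynomials in the second variable as a finite-dimensional smooth family
-/

set_option autoImplicit false
set_option linter.all false

open Set Filter Topology Metric Module
open scoped ContDiff Nat

namespace Pool.Agent.Zk95.MS

section

variable {Y F : Type} [NormedAddCommGroup Y] [NormedSpace ℝ Y] [NormedAddCommGroup F]
  [NormedSpace ℝ F]

/-- the evaluation of a multilinear map on the diagonal is smooth in both variables -/
theorem contDiff_diag (i : ℕ) :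
    ∀ {F : Type} [NormedAddCommGroup F] [NormedSpace ℝ F],
      ContDiff ℝ ∞ (fun p : (ContinuousMultilinearMap ℝ (fun _ : Fin i => Y) F) × Y =>
      p.1 (fun _ => p.2)) := by
  induction i with
  | zero =>
    intro F _ _
    have h : (fun p : (ContinuousMultilinearMap ℝ (fun _ : Fin 0 => Y) F) × Y =>
        p.1 (fun _ => p.2)) = fun p => ContinuousMultilinearMap.apply ℝ (fun _ : Fin 0 => Y) F 0 p.1 := by
      funext p
      rw [ContinuousMultilinearMap.apply_apply]
      congr 1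
      funext j
      exact j.elim0
    rw [h]
    exact (ContinuousLinearMap.contDiff _).comp contDiff_fst
  | succ i ih =>
    intro F _ _
    have h : (fun p : (ContinuousMultilinearMap ℝ (fun _ : Fin (i + 1) => Y) F) × Y =>
        p.1 (fun _ => p.2)) = (fun q : (ContinuousMultilinearMap ℝ (fun _ : Fin i => Y) F) × Y =>
        q.1 (fun _ => q.2)) ∘ fun p => (continuousMultilinearCurryLeftEquiv ℝ
          (fun _ : Fin (i + 1) => Y) F p.1 p.2, p.2) := by
      funext p
      simp only [Function.comp]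
      rw [continuousMultilinearCurryLeftEquiv_apply]
      congr 1
      funext j
      refine Fin.cases ?_ (fun j => ?_) j <;> simp
    rw [h]
    refine (ih).comp (ContDiff.prodMk ?_ contDiff_snd)
    refine ContDiff.clm_apply ?_ contDiff_snd
    exact (LinearIsometryEquiv.contDiff _).comp contDiff_fst

theorem finite_multilinear (i : ℕ) [FiniteDimensional ℝ Y] [FiniteDimensional ℝ F] :
    FiniteDimensional ℝ (ContinuousMultilinearMap ℝ (fun _ : Fin i => Y) F) := by
  let T : (ContinuousMultilinearMap ℝ (fun _ : Fin i => Y) F) →ₗ[ℝ]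
      MultilinearMap ℝ (fun _ : Fin i => Y) F :=
    { toFun := ContinuousMultilinearMap.toMultilinearMap
      map_add' := fun _ _ => rfl
      map_smul' := fun _ _ => rfl }
  exact FiniteDimensional.of_injective T
    (fun a b h => ContinuousMultilinearMap.toMultilinearMap_injective h)

end

section

variable {E F : Type} [NormedAddCommGroup E] [NormedSpace ℝ E] [NormedAddCommGroup F]
  [NormedSpace ℝ F]

/-- the derivatives of `f` along a line -/
theorem iteratedDeriv_line {f : E → F} (r : ℕ) (hf : ContDiff ℝ r f) (p w : E) (i : ℕ) (hi : i ≤ r)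
    (t : ℝ) : iteratedDeriv i (fun s : ℝ => f (p + s • w)) t =
      iteratedFDeriv ℝ i f (p + t • w) (fun _ => w) := by
  set L : ℝ →L[ℝ] E := (ContinuousLinearMap.id ℝ ℝ).smulRight w with hL
  have h1 : (fun s : ℝ => f (p + s • w)) = (fun y => f (p + y)) ∘ L := by
    funext s
    simp [hL]
  have h2 : ContDiff ℝ r (fun y => f (p + y)) := hf.comp (contDiff_const.add contDiff_id)
  rw [iteratedDeriv_eq_iteratedFDeriv, h1,
    L.iteratedFDeriv_comp_right h2 t (by exact_mod_cast hi)]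
  rw [ContinuousMultilinearMap.compContinuousLinearMap_apply, iteratedFDeriv_comp_add_left]
  simp [hL]

/-- Taylor's theorem along a segment -/
theorem taylor_line {f : E → F} (n : ℕ) (hf : ContDiff ℝ (n + 1 : ℕ) f) (p w : E) {M : ℝ}
    (hM : ∀ t ∈ Icc (0 : ℝ) 1, ‖iteratedFDeriv ℝ (n + 1) f (p + t • w)‖ ≤ M) :
    ‖f (p + w) - ∑ i ∈ Finset.range (n + 1),
      ((i ! : ℝ))⁻¹ • iteratedFDeriv ℝ i f p (fun _ => w)‖ ≤ M * ‖w‖ ^ (n + 1) := by
  have hM0 : 0 ≤ M := (norm_nonneg _).trans (hM 0 ⟨le_rfl, zero_le_one⟩)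
  set g : ℝ → F := fun s => f (p + s • w) with hg
  have hgc : ContDiff ℝ (n + 1 : ℕ) g :=
    hf.comp (contDiff_const.add (contDiff_id.smul contDiff_const))
  have hu : UniqueDiffOn ℝ (Icc (0 : ℝ) 1) := uniqueDiffOn_Icc zero_lt_one
  have hd : ∀ i, i ≤ n + 1 → ∀ t ∈ Icc (0 : ℝ) 1, iteratedDerivWithin i g (Icc 0 1) t =
      iteratedFDeriv ℝ i f (p + t • w) (fun _ => w) := by
    intro i hi t ht
    rw [iteratedDerivWithin_eq_iteratedDeriv hu _ ht]
    · exact iteratedDeriv_line (n + 1) hf p w i hi t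
    · exact (hgc.of_le (by exact_mod_cast hi)).contDiffAt
  have h := taylor_mean_remainder_bound (f := g) (a := 0) (b := 1) (x := 1) (n := n)
    (C := M * ‖w‖ ^ (n + 1)) zero_le_one (by exact_mod_cast hgc.contDiffOn)
    ⟨zero_le_one, le_rfl⟩ (fun t ht => by
      rw [hd (n + 1) le_rfl t ht]
      refine (ContinuousMultilinearMap.le_opNorm _ _).trans ?_
      rw [Finset.prod_const, Finset.card_univ, Fintype.card_fin]
      exact mul_le_mul_of_nonneg_right (hM t ht) (by positivity))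
  rw [taylor_within_apply] at h
  have h1 : ∀ k ∈ Finset.range (n + 1), ((k ! : ℝ)⁻¹ * (1 - 0) ^ k) •
      iteratedDerivWithin k g (Icc 0 1) 0 = (k ! : ℝ)⁻¹ • iteratedFDeriv ℝ k f p (fun _ => w) := by
    intro k hk
    rw [hd k (by have := Finset.mem_range.1 hk; omega) 0 ⟨le_rfl, zero_le_one⟩]
    simp
  rw [Finset.sum_congr rfl h1] at h
  have h2 : g 1 = f (p + w) := by simp [hg]
  rw [h2] at h
  refine h.trans ?_
  have h3 : (1 : ℝ) ≤ (n ! : ℝ) := by exact_mod_cast Nat.one_le_iff_ne_zero.2 (Nat.factorial_ne_zero n)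
  rw [sub_zero, one_pow, mul_one]
  exact div_le_self (by positivity) h3

end

theorem taylor_family {U Y F : Type} [NormedAddCommGroup U] [NormedSpace ℝ U]
    [FiniteDimensional ℝ U] [NormedAddCommGroup Y] [NormedSpace ℝ Y] [FiniteDimensional ℝ Y]
    [NormedAddCommGroup F] [NormedSpace ℝ F] [FiniteDimensional ℝ F] (r : ℕ) (hr : 1 ≤ r)
    (f : U × Y → F) (hf : ContDiff ℝ r f) :
    ∃ (K : Type) (_ : NormedAddCommGroup K) (_ : NormedSpace ℝ K) (_ : FiniteDimensional ℝ K)
      (κ : U × Y → K) (Φ : K × Y → F), Continuous κ ∧ ContDiff ℝ ∞ Φ ∧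
      (∀ x, Φ (κ x, x.2) = f x) ∧
      (∀ x : U × Y, (fderiv ℝ f x).comp (ContinuousLinearMap.inr ℝ U Y) = 0 →
        HasFDerivAt (fun z => Φ (κ x, z)) (0 : Y →L[ℝ] F) x.2) ∧
      ∀ p₀ : U × Y, ∃ C : ℝ, 0 ≤ C ∧ ∀ x x' : U × Y, ∀ z : Y,
        x.1 ∈ Metric.closedBall p₀.1 1 → x'.1 ∈ Metric.closedBall p₀.1 1 →
        x.2 ∈ Metric.closedBall p₀.2 1 → x'.2 ∈ Metric.closedBall p₀.2 1 →
        z ∈ Metric.closedBall p₀.2 1 →
        ‖Φ (κ x, z) - Φ (κ x', z)‖ ≤ C * (‖x.1 - x'.1‖ + ‖z - x.2‖ ^ r + ‖z - x'.2‖ ^ r) := by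
  obtain ⟨n, rfl⟩ : ∃ n, r = n + 1 := ⟨r - 1, by omega⟩
  set J : Y →L[ℝ] U × Y := ContinuousLinearMap.inr ℝ U Y with hJ
  haveI hfin : ∀ i : Fin (n + 1), FiniteDimensional ℝ
      (ContinuousMultilinearMap ℝ (fun _ : Fin (i : ℕ) => Y) F) := fun i =>
    finite_multilinear (i : ℕ)
  let κ : U × Y → (∀ i : Fin (n + 1), ContinuousMultilinearMap ℝ (fun _ : Fin i => Y) F) × Y :=
    fun x => (fun i => (iteratedFDeriv ℝ i f x).compContinuousLinearMap (fun _ => J), x.2)
  let Φ : ((∀ i : Fin (n + 1), ContinuousMultilinearMap ℝ (fun _ : Fin i => Y) F) × Y) × Y → F :=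
    fun q => ∑ i : Fin (n + 1), (((i : ℕ)! : ℝ))⁻¹ • q.1.1 i (fun _ => q.2 - q.1.2)
  have hΦκ : ∀ (x : U × Y) (z : Y), Φ (κ x, z) = ∑ i ∈ Finset.range (n + 1),
      ((i ! : ℝ))⁻¹ • iteratedFDeriv ℝ i f x (fun _ => J (z - x.2)) := by
    intro x z
    rw [Finset.sum_range]
    rfl
  have hTay : ∀ p₀ : U × Y, ∃ M : ℝ, 0 ≤ M ∧ ∀ (x : U × Y) (z : Y),
      x.1 ∈ Metric.closedBall p₀.1 1 → x.2 ∈ Metric.closedBall p₀.2 1 →
      z ∈ Metric.closedBall p₀.2 1 → ‖f (x.1, z) - Φ (κ x, z)‖ ≤ M * ‖z - x.2‖ ^ (n + 1) := by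
    intro p₀
    have hcomp : IsCompact (Metric.closedBall p₀.1 1 ×ˢ Metric.closedBall p₀.2 1) :=
      (isCompact_closedBall _ _).prod (isCompact_closedBall _ _)
    obtain ⟨M, hM⟩ := hcomp.exists_bound_of_continuousOn
      (hf.continuous_iteratedFDeriv (m := n + 1) (by exact_mod_cast le_rfl)).continuousOn
    have hM0 : 0 ≤ M := (norm_nonneg _).trans (hM p₀ ⟨by simp, by simp⟩)
    refine ⟨M, hM0, fun x z hx1 hx2 hz => ?_⟩
    have h := taylor_line (f := f) n hf x (J (z - x.2)) (M := M) (fun t ht => by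
      refine hM _ ⟨?_, ?_⟩
      · simpa [hJ] using hx1
      · have h1 : (x + t • J (z - x.2)).2 = x.2 + t • (z - x.2) := by simp [hJ]
        rw [h1]
        have h2 := (convex_closedBall p₀.2 (1 : ℝ)) hx2 hz (a := 1 - t) (b := t)
          (by linarith [ht.2]) ht.1 (by ring)
        have h3 : x.2 + t • (z - x.2) = (1 - t) • x.2 + t • z := by
          rw [smul_sub, sub_smul, one_smul]; abel
        rw [h3]
        exact h2)
    rw [hΦκ]
    have h4 : x + J (z - x.2) = (x.1, z) := by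
      ext
      · simp [hJ]
      · simp [hJ]
    rw [h4] at h
    have h5 : ‖J (z - x.2)‖ = ‖z - x.2‖ := by simp [hJ, Prod.norm_def]
    rw [h5] at h
    exact h
  refine ⟨(∀ i : Fin (n + 1), ContinuousMultilinearMap ℝ (fun _ : Fin i => Y) F) × Y,
    inferInstance, inferInstance, inferInstance, κ, Φ, ?_, ?_, ?_, ?_, ?_⟩
  · refine Continuous.prodMk (continuous_pi fun i => ?_) continuous_snd
    have h1 : Continuous (iteratedFDeriv ℝ (i : ℕ) f) :=
      hf.continuous_iteratedFDeriv (by exact_mod_cast i.2.le)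
    exact (ContinuousMultilinearMap.compContinuousLinearMapL
      (fun _ : Fin (i : ℕ) => J)).continuous.comp h1
  · refine ContDiff.sum fun i _ => contDiff_const.smul ?_
    have h1 := contDiff_diag (Y := Y) (i : ℕ) (F := F)
    refine h1.comp (ContDiff.prodMk ?_ ?_)
    · exact contDiff_pi.1 (contDiff_fst.comp contDiff_fst) i
    · exact contDiff_snd.sub (contDiff_snd.comp contDiff_fst)
  · intro x
    rw [hΦκ, Finset.sum_eq_single_of_mem 0 (by simp)]
    · simp [iteratedFDeriv_zero_apply]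
    · intro i _ hi
      rw [sub_self, map_zero]
      have : (iteratedFDeriv ℝ i f x) (fun _ => (0 : U × Y)) = 0 := by
        haveI : Nonempty (Fin i) := ⟨⟨0, Nat.pos_of_ne_zero hi⟩⟩
        exact (iteratedFDeriv ℝ i f x).map_zero
      rw [this, smul_zero]
  · intro x hx
    have h0 : (fun z => Φ (κ x, z)) = fun z => ∑ i ∈ Finset.range (n + 1),
      ((i ! : ℝ))⁻¹ • iteratedFDeriv ℝ i f x (fun _ => J (z - x.2)) := funext fun z => hΦκ x z
    rw [h0]
    have h1 : ∀ i ∈ Finset.range (n + 1), HasFDerivAt (fun z => ((i ! : ℝ))⁻¹ •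
        iteratedFDeriv ℝ i f x (fun _ => J (z - x.2))) (0 : Y →L[ℝ] F) x.2 := by
      intro i _
      rcases Nat.lt_or_ge 1 i with hi | hi
      · refine Asymptotics.IsBigO.hasFDerivAt (n := i) ?_ hi
        refine Asymptotics.IsBigO.of_bound (|((i ! : ℝ))⁻¹| * ‖iteratedFDeriv ℝ i f x‖)
          (Filter.Eventually.of_forall fun z => ?_)
        rw [norm_smul, Real.norm_eq_abs, mul_assoc]
        refine mul_le_mul_of_nonneg_left ?_ (abs_nonneg _)
        refine (ContinuousMultilinearMap.le_opNorm _ _).trans ?_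
        rw [Finset.prod_const, Finset.card_univ, Fintype.card_fin]
        have h5 : ‖J (z - x.2)‖ = ‖z - x.2‖ := by simp [hJ, Prod.norm_def]
        rw [h5, Real.norm_of_nonneg (by positivity)]
      · interval_cases i
        · have h2 : (fun z : Y => (((0 : ℕ)! : ℝ))⁻¹ •
              iteratedFDeriv ℝ 0 f x (fun _ => J (z - x.2))) = fun _ => f x := by
            funext z; simp [iteratedFDeriv_zero_apply]
          rw [h2]
          exact hasFDerivAt_const _ _
        · have h2 : (fun z : Y => (((1 : ℕ)! : ℝ))⁻¹ •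
              iteratedFDeriv ℝ 1 f x (fun _ => J (z - x.2))) = fun _ => 0 := by
            funext z
            rw [iteratedFDeriv_one_apply]
            have h3 := DFunLike.congr_fun hx (z - x.2)
            rw [ContinuousLinearMap.comp_apply] at h3
            rw [h3]
            simp
          rw [h2]
          exact hasFDerivAt_const _ _
    have h2 := HasFDerivAt.fun_sum h1
    simpa using h2
  · intro p₀
    obtain ⟨M, hM0, hM⟩ := hTay p₀
    -- Lipschitz bound
    have hcomp : IsCompact (Metric.closedBall p₀.1 1 ×ˢ Metric.closedBall p₀.2 1) :=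
      (isCompact_closedBall _ _).prod (isCompact_closedBall _ _)
    have hd : Differentiable ℝ f := hf.differentiable (by simp)
    obtain ⟨L, hL⟩ := hcomp.exists_bound_of_continuousOn
      (hf.continuous_fderiv (by simp)).continuousOn
    have hL0 : 0 ≤ L := (norm_nonneg _).trans (hL p₀ ⟨by simp, by simp⟩)
    have hLip : ∀ u u' : U, ∀ z : Y, u ∈ Metric.closedBall p₀.1 1 → u' ∈ Metric.closedBall p₀.1 1 →
        z ∈ Metric.closedBall p₀.2 1 → ‖f (u, z) - f (u', z)‖ ≤ L * ‖u - u'‖ := by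
      intro u u' z hu hu' hz
      have h1 := ((convex_closedBall p₀.1 (1 : ℝ)).prod (convex_closedBall p₀.2 (1 : ℝ))
        ).norm_image_sub_le_of_norm_fderiv_le (fun y _ => hd y) hL
        (⟨hu', hz⟩ : (u', z) ∈ Metric.closedBall p₀.1 1 ×ˢ Metric.closedBall p₀.2 1)
        (⟨hu, hz⟩ : (u, z) ∈ Metric.closedBall p₀.1 1 ×ˢ Metric.closedBall p₀.2 1)
      have h2 : ‖((u, z) : U × Y) - (u', z)‖ = ‖u - u'‖ := by simp [Prod.norm_def]
      rw [h2] at h1
      exact h1
    refine ⟨max M L, hM0.trans (le_max_left _ _), fun x x' z hx1 hx1' hx2 hx2' hz => ?_⟩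
    have e1 := hM x z hx1 hx2 hz
    have e2 := hM x' z hx1' hx2' hz
    have e3 := hLip x.1 x'.1 z hx1 hx1' hz
    have e4 : Φ (κ x, z) - Φ (κ x', z) = -(f (x.1, z) - Φ (κ x, z)) + (f (x.1, z) - f (x'.1, z)) +
        (f (x'.1, z) - Φ (κ x', z)) := by abel
    rw [e4]
    refine (norm_add₃_le).trans ?_
    rw [norm_neg]
    have g1 : M * ‖z - x.2‖ ^ (n + 1) ≤ max M L * ‖z - x.2‖ ^ (n + 1) :=
      mul_le_mul_of_nonneg_right (le_max_left _ _) (by positivity)
    have g2 : M * ‖z - x'.2‖ ^ (n + 1) ≤ max M L * ‖z - x'.2‖ ^ (n + 1) :=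
      mul_le_mul_of_nonneg_right (le_max_left _ _) (by positivity)
    have g3 : L * ‖x.1 - x'.1‖ ≤ max M L * ‖x.1 - x'.1‖ :=
      mul_le_mul_of_nonneg_right (le_max_right _ _) (by positivity)
    rw [mul_add, mul_add]
    linarith

end Pool.Agent.Zk95.MS
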